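import Mathlib

/-!
Proof idea.  Fix a target `v`, let `a` maximise `h(·, v)`, let `S t = P_a(T_v > t)` and
`H t = ∑_{s ≥ t} S s`, so that `H 0 = h(a, v) = h`.  By the Markov property at time `t`,
`H t ≤ h * S t` (the walk which has survived until time `t` sits at some vertex, from which the
expected remaining time is at most `h`).  Hence
`k * h ^ (k - 1) * S t ^ k ≥ k * H t ^ (k - 1) * (H t - H (t + 1)) ≥ H t ^ k - H (t + 1) ^ k`,
and summing over `t` gives `k * ∑ S t ^ k ≥ h`.  Finally `∑ S t ^ k = h^k(a, v)`.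
-/

open MeasureTheory ProbabilityTheory
open scoped ENNReal

namespace Pool.Agent.Results.MP_990fd9_pr.HittingSpeedup

universe u

variable {V : Type u} [Fintype V] [MeasurableSpace V] [MeasurableSingletonClass V]

/-- The digraph `G` is strongly connected: every vertex can be reached from every vertex
along a directed path (possibly of length zero). -/
def StronglyConnected (G : Digraph V) : Prop :=
  ∀ a b : V, Relation.ReflTransGen G.Adj a b

open Classical in
/-- The finite set of out-neighbours of `a` in `G`. -/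
noncomputable def outNeighbours (G : Digraph V) (a : V) : Finset V :=
  Finset.univ.filter (fun b => G.Adj a b)

open Classical in
/-- One step of the simple random walk from `a`: uniformly distributed on the out-neighbours
of `a`.  If `a` has no out-neighbour (in a strongly connected digraph this happens only
for the one-vertex digraph without loop) the walk stays at `a`. -/
noncomputable def stepLaw (G : Digraph V) (a : V) : PMF V :=
  if h : (outNeighbours G a).Nonempty then PMF.uniformOfFinset (outNeighbours G a) h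
  else PMF.pure a

/-- The transition kernel of the simple random walk: given the trajectory
`x 0, ..., x n`, the next position has law `stepLaw G (x n)`. -/
noncomputable def stepKernel (G : Digraph V) (n : ℕ) :
    Kernel ((i : Finset.Iic n) → V) V :=
  Kernel.ofFunOfCountable fun x => (stepLaw G (x ⟨n, Finset.mem_Iic.2 le_rfl⟩)).toMeasure

instance (G : Digraph V) (n : ℕ) : IsMarkovKernel (stepKernel G n) :=
  ⟨fun _ => inferInstanceAs (IsProbabilityMeasure (PMF.toMeasure _))⟩

/-- The law (on trajectories `ℕ → V`) of the simple random walk on `G` started at `a`,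
given by the Ionescu-Tulcea theorem. -/
noncomputable def walkLaw (G : Digraph V) (a : V) : Measure (ℕ → V) :=
  Kernel.traj (X := fun _ => V) (stepKernel G) 0 (fun _ => a)

/-- The first time `t ≥ 0` at which the trajectory `ω` is at `v` (`⊤` if there is none). -/
noncomputable def hitTime (v : V) (ω : ℕ → V) : ℕ∞ :=
  ⨅ (t : ℕ) (_ : ω t = v), (t : ℕ∞)

/-- `h(a, v)`: expected hitting time of `v` for the walk started at `a`. -/
noncomputable def meanHit (G : Digraph V) (a v : V) : ℝ≥0∞ :=
  ∫⁻ ω, ((hitTime v ω : ℕ∞) : ℝ≥0∞) ∂(walkLaw G a)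

/-- `h({a_1, ..., a_k}, v)`: expected joint hitting time of `v` for `k` independent walks,
the `i`-th one started at `a i`. -/
noncomputable def meanJointHit (G : Digraph V) (k : ℕ) (a : Fin k → V) (v : V) : ℝ≥0∞ :=
  ∫⁻ ω : Fin k → ℕ → V, ((⨅ i, hitTime v (ω i) : ℕ∞) : ℝ≥0∞)
    ∂(Measure.pi fun i => walkLaw G (a i))

/-- `h_max`. -/
noncomputable def hMax (G : Digraph V) : ℝ≥0∞ :=
  ⨆ (a : V) (v : V), meanHit G a v

/-- `h^k_max`. -/
noncomputable def hkMax (G : Digraph V) (k : ℕ) : ℝ≥0∞ :=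
  ⨆ (a : Fin k → V) (v : V), meanJointHit G k a v

instance (G : Digraph V) (a : V) : IsProbabilityMeasure (walkLaw G a) := by
  unfold walkLaw; infer_instance

lemma stepKernel_apply (G : Digraph V) (n : ℕ) (x : (i : Finset.Iic n) → V) :
    stepKernel G n x = (stepLaw G (x ⟨n, Finset.mem_Iic.2 le_rfl⟩)).toMeasure := rfl

lemma walkLaw_step (G : Digraph V) (a v : V) (t : ℕ) (w' w : V) :
    walkLaw G a {ω | ((∀ s ≤ t, ω s ≠ v) ∧ ω t = w') ∧ ω (t + 1) = w} =
      walkLaw G a {ω | (∀ s ≤ t, ω s ≠ v) ∧ ω t = w'} * stepLaw G w' w := by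
  classical
  set A : Set ((i : Finset.Iic t) → V) :=
    {x | (∀ i, x i ≠ v) ∧ x ⟨t, Finset.mem_Iic.2 le_rfl⟩ = w'} with hA
  have hAm : MeasurableSet A := (Set.toFinite A).measurableSet
  have h := Kernel.partialTraj_compProd_eq_map_traj (X := fun _ => V) (κ := stepKernel G)
    (Nat.zero_le t) (x₀ := fun _ => a)
  have h2 := congrArg (fun μ : Measure (((i : Finset.Iic t) → V) × V) => μ (A ×ˢ {w})) h

  rw [Measure.compProd_apply_prod hAm (measurableSet_singleton w),
    Measure.map_apply (by fun_prop) (hAm.prod (measurableSet_singleton w))] at h2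
  have e1 : (fun x : ℕ → V => (Preorder.frestrictLe (π := fun _ => V) t x, x (t + 1))) ⁻¹' (A ×ˢ {w}) =
      {ω | ((∀ s ≤ t, ω s ≠ v) ∧ ω t = w') ∧ ω (t + 1) = w} := by
    ext ω
    simp [hA, Preorder.frestrictLe]
  rw [e1] at h2
  have e2 : walkLaw G a {ω | (∀ s ≤ t, ω s ≠ v) ∧ ω t = w'} =
      Kernel.partialTraj (X := fun _ => V) (stepKernel G) 0 t (fun _ => a) A := by
    rw [← Kernel.traj_map_frestrictLe_apply, Measure.map_apply (by fun_prop) hAm]
    congr 1
    ext ω
    simp [hA, Preorder.frestrictLe]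
  rw [e2]
  change Kernel.traj (X := fun _ => V) (stepKernel G) 0 (fun _ => a) _ = _
  rw [← h2]
  rw [setLIntegral_congr_fun (g := fun _ => stepLaw G w' w) hAm]
  · simp [mul_comm]
  · intro x hx
    simp only
    rw [stepKernel_apply, hx.2, PMF.toMeasure_apply_singleton _ _ (measurableSet_singleton w)]

lemma walkLaw_zero (G : Digraph V) (a : V) (B : Set V) :
    walkLaw G a {ω | ω 0 ∈ B} = B.indicator 1 a := by
  classical
  have h := Kernel.traj_map_frestrictLe_apply (X := fun _ => V) (κ := stepKernel G) 0 0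
    (fun _ => a)
  rw [Kernel.partialTraj_self, Kernel.id_apply] at h
  have hB : MeasurableSet {x : (i : Finset.Iic 0) → V | x ⟨0, Finset.mem_Iic.2 le_rfl⟩ ∈ B} :=
    (Set.toFinite _).measurableSet
  have h2 := congrArg (fun μ : Measure ((i : Finset.Iic 0) → V) =>
    μ {x | x ⟨0, Finset.mem_Iic.2 le_rfl⟩ ∈ B}) h
  rw [Measure.map_apply (by fun_prop) hB, Measure.dirac_apply' _ hB] at h2
  have : walkLaw G a {ω | ω 0 ∈ B} = Kernel.traj (X := fun _ => V) (stepKernel G) 0 (fun _ => a)
    (Preorder.frestrictLe 0 ⁻¹' {x | x ⟨0, Finset.mem_Iic.2 le_rfl⟩ ∈ B}) := rfl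
  rw [this, h2]
  by_cases ha : a ∈ B <;> simp [Set.indicator, ha]

lemma measurableSet_eval (t : ℕ) (B : Set V) : MeasurableSet {ω : ℕ → V | ω t ∈ B} :=
  (measurable_pi_apply t) (Set.toFinite B).measurableSet

lemma measurableSet_avoid (v : V) (t : ℕ) : MeasurableSet {ω : ℕ → V | ∀ s ≤ t, ω s ≠ v} := by
  have : {ω : ℕ → V | ∀ s ≤ t, ω s ≠ v} = ⋂ s, ⋂ (_ : s ≤ t), {ω : ℕ → V | ω s ∈ ({v}ᶜ : Set V)} := by
    ext ω; simp
  rw [this]
  exact MeasurableSet.iInter fun s => MeasurableSet.iInter fun _ => measurableSet_eval s _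

open Classical in
/-- transition matrix of the walk killed when it enters `v`. -/
noncomputable def killed (G : Digraph V) (v : V) : Matrix V V ℝ≥0∞ :=
  fun a b => if b = v then 0 else stepLaw G a b

open Classical in
lemma occ_eq (G : Digraph V) (a v : V) (hav : a ≠ v) (t : ℕ) (w : V) :
    walkLaw G a {ω | (∀ s ≤ t, ω s ≠ v) ∧ ω t = w} = (killed G v ^ t) a w := by
  induction t generalizing w with
  | zero =>
    have e : {ω : ℕ → V | (∀ s ≤ 0, ω s ≠ v) ∧ ω 0 = w} = {ω | ω 0 ∈ ({v}ᶜ ∩ {w} : Set V)} := by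
      ext ω; simp
    rw [e, walkLaw_zero, pow_zero, Matrix.one_apply]
    by_cases haw : a = w
    · subst haw; simp [hav]
    · simp [haw]
  | succ t ih =>
    rw [pow_succ, Matrix.mul_apply]
    by_cases hw : w = v
    · subst hw
      have e : {ω : ℕ → V | (∀ s ≤ t + 1, ω s ≠ w) ∧ ω (t + 1) = w} = ∅ := by
        ext ω
        simp only [Set.mem_ofPred_eq, Set.mem_empty_iff_false, iff_false, not_and]
        intro h1 h2
        exact h1 (t + 1) le_rfl h2
      simp [e, killed]
    · have e : {ω : ℕ → V | (∀ s ≤ t + 1, ω s ≠ v) ∧ ω (t + 1) = w} =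
          ⋃ w' ∈ (Finset.univ : Finset V),
            {ω | ((∀ s ≤ t, ω s ≠ v) ∧ ω t = w') ∧ ω (t + 1) = w} := by
        ext ω
        simp only [Set.mem_ofPred_eq, Finset.mem_univ, Set.iUnion_true, Set.mem_iUnion]
        constructor
        · rintro ⟨h1, h2⟩
          exact ⟨ω t, ⟨fun s hs => h1 s (by omega), rfl⟩, h2⟩
        · rintro ⟨w', ⟨h1, _⟩, h2⟩
          refine ⟨fun s hs => ?_, h2⟩
          rcases Nat.lt_or_ge t s with hlt | hge
          · have : s = t + 1 := by omega
            subst this; rw [h2]; exact hw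
          · exact h1 s hge
      rw [e, measure_biUnion_finset]
      · refine Finset.sum_congr rfl fun w' _ => ?_
        rw [walkLaw_step, ih w']
        simp [killed, hw]
      · intro x _ y _ hxy
        rw [Function.onFun, Set.disjoint_left]
        rintro ω ⟨⟨_, h1⟩, _⟩ ⟨⟨_, h2⟩, _⟩
        exact hxy (h1.symm.trans h2)
      · intro b _
        have e2 : {ω : ℕ → V | ((∀ s ≤ t, ω s ≠ v) ∧ ω t = b) ∧ ω (t + 1) = w} =
          ({ω : ℕ → V | ∀ s ≤ t, ω s ≠ v} ∩ {ω | ω t ∈ ({b} : Set V)}) ∩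
            {ω | ω (t + 1) ∈ ({w} : Set V)} := by
          ext ω; simp
        rw [e2]
        exact ((measurableSet_avoid v t).inter (measurableSet_eval t _)).inter
          (measurableSet_eval (t + 1) _)

/-- `P_a(T_v > t)`. -/
noncomputable def surv (G : Digraph V) (v a : V) (t : ℕ) : ℝ≥0∞ :=
  walkLaw G a {ω | ∀ s ≤ t, ω s ≠ v}

lemma surv_self (G : Digraph V) (v : V) (t : ℕ) : surv G v v t = 0 := by
  have h := walkLaw_zero G v ({v}ᶜ : Set V)
  simp only [Set.indicator, Set.mem_compl_iff, Set.mem_singleton_iff, not_true_eq_false,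
    if_false] at h
  refine measure_mono_null ?_ h
  intro ω hω
  exact hω 0 (Nat.zero_le _)

open Classical in
lemma surv_eq (G : Digraph V) (v a : V) (hav : a ≠ v) (t : ℕ) :
    surv G v a t = ∑ w, (killed G v ^ t) a w := by
  have e : {ω : ℕ → V | ∀ s ≤ t, ω s ≠ v} = ⋃ w ∈ (Finset.univ : Finset V),
      {ω | (∀ s ≤ t, ω s ≠ v) ∧ ω t = w} := by
    ext ω; simp
  rw [surv, e, measure_biUnion_finset]
  · exact Finset.sum_congr rfl fun w _ => occ_eq G a v hav t w
  · intro x _ y _ hxy
    rw [Function.onFun, Set.disjoint_left]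
    rintro ω ⟨_, h1⟩ ⟨_, h2⟩
    exact hxy (h1.symm.trans h2)
  · intro b _
    have e2 : {ω : ℕ → V | (∀ s ≤ t, ω s ≠ v) ∧ ω t = b} =
      {ω : ℕ → V | ∀ s ≤ t, ω s ≠ v} ∩ {ω | ω t ∈ ({b} : Set V)} := by
      ext ω; simp
    rw [e2]
    exact (measurableSet_avoid v t).inter (measurableSet_eval t _)

open Classical in
lemma killed_pow_self (G : Digraph V) (v a : V) (hav : a ≠ v) (t : ℕ) :
    (killed G v ^ t) a v = 0 := by
  rw [← occ_eq G a v hav]
  have e : {ω : ℕ → V | (∀ s ≤ t, ω s ≠ v) ∧ ω t = v} = ∅ := by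
    ext ω
    simp only [Set.mem_ofPred_eq, Set.mem_empty_iff_false, iff_false, not_and]
    intro h1 h2
    exact h1 t le_rfl h2
  simp [e]

open Classical in
lemma surv_add (G : Digraph V) (v a : V) (hav : a ≠ v) (t s : ℕ) :
    surv G v a (t + s) = ∑ z, (killed G v ^ t) a z * surv G v z s := by
  rw [surv_eq G v a hav, pow_add]
  simp only [Matrix.mul_apply]
  rw [Finset.sum_comm]
  refine Finset.sum_congr rfl fun z _ => ?_
  by_cases hz : z = v
  · subst hz; simp [killed_pow_self G z a hav]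
  · rw [surv_eq G v z hz, Finset.mul_sum]

omit [Fintype V] [MeasurableSpace V] [MeasurableSingletonClass V] in
lemma lt_hitTime_iff (v : V) (ω : ℕ → V) (t : ℕ) :
    (t : ℕ∞) < hitTime v ω ↔ ∀ s ≤ t, ω s ≠ v := by
  have h : (t : ℕ∞) < hitTime v ω ↔ ((t + 1 : ℕ) : ℕ∞) ≤ hitTime v ω := by
    rw [Nat.cast_add, Nat.cast_one, ENat.add_one_le_iff (ENat.natCast_ne_top t)]
  rw [h, hitTime]
  simp only [le_iInf_iff, Nat.cast_le]
  constructor
  · intro H s hs hv
    have := H s hv
    omega
  · intro H s hv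
    by_contra hlt
    exact H s (by omega) hv

lemma enat_coe_eq_tsum (n : ℕ∞) :
    (n : ℝ≥0∞) = ∑' t : ℕ, ({m : ℕ∞ | (t : ℕ∞) < m}.indicator (1 : ℕ∞ → ℝ≥0∞) n) := by
  classical
  induction n using ENat.recTopCoe with
  | top =>
    simp
  | coe n =>
    rw [tsum_eq_sum (s := Finset.range n)]
    · have : ∀ t ∈ Finset.range n,
          ({m : ℕ∞ | (t : ℕ∞) < m}.indicator (1 : ℕ∞ → ℝ≥0∞) (n : ℕ∞)) = 1 := by
        intro t ht
        have h1 : t < n := Finset.mem_range.1 ht
        have h2 : ((t : ℕ) : ℕ∞) < (n : ℕ∞) := by exact_mod_cast h1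
        rw [Set.indicator_of_mem (show (n : ℕ∞) ∈ {m : ℕ∞ | (t : ℕ∞) < m} from h2)]
        rfl
      rw [Finset.sum_congr rfl this]
      simp
    · intro t ht
      have h1 : ¬ t < n := fun h => ht (Finset.mem_range.2 h)
      simp [Set.indicator, h1]

lemma lintegral_enat {Ω : Type*} [MeasurableSpace Ω] (μ : Measure Ω) (N : Ω → ℕ∞)
    (hN : ∀ t : ℕ, MeasurableSet {ω | (t : ℕ∞) < N ω}) :
    ∫⁻ ω, (N ω : ℝ≥0∞) ∂μ = ∑' t : ℕ, μ {ω | (t : ℕ∞) < N ω} := by
  have h1 : ∀ ω, (N ω : ℝ≥0∞) =
      ∑' t : ℕ, ({ω' | (t : ℕ∞) < N ω'}.indicator (1 : Ω → ℝ≥0∞) ω) := by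
    intro ω
    rw [enat_coe_eq_tsum (N ω)]
    rfl
  simp only [h1]
  rw [lintegral_tsum (fun t => (measurable_one.indicator (hN t)).aemeasurable)]
  refine tsum_congr fun t => ?_
  rw [lintegral_indicator_one (hN t)]

lemma meanHit_eq (G : Digraph V) (a v : V) : meanHit G a v = ∑' t : ℕ, surv G v a t := by
  rw [meanHit, lintegral_enat]
  · refine tsum_congr fun t => ?_
    simp only [lt_hitTime_iff]
    rfl
  · intro t
    simp only [lt_hitTime_iff]
    exact measurableSet_avoid v t

lemma meanJointHit_eq (G : Digraph V) (k : ℕ) (a : Fin k → V) (v : V) :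
    meanJointHit G k a v = ∑' t : ℕ, ∏ i, surv G v (a i) t := by
  have key : ∀ t : ℕ, {ω : Fin k → ℕ → V | (t : ℕ∞) < ⨅ i, hitTime v (ω i)} =
      Set.pi Set.univ (fun _ => {ω : ℕ → V | ∀ s ≤ t, ω s ≠ v}) := by
    intro t
    ext ω
    have h : (t : ℕ∞) < (⨅ i, hitTime v (ω i)) ↔
        ((t + 1 : ℕ) : ℕ∞) ≤ ⨅ i, hitTime v (ω i) := by
      rw [Nat.cast_add, Nat.cast_one, ENat.add_one_le_iff (ENat.natCast_ne_top t)]
    simp only [Set.mem_ofPred_eq, Set.mem_pi, Set.mem_univ, true_imp_iff]
    rw [h, le_iInf_iff]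
    refine forall_congr' fun i => ?_
    rw [← lt_hitTime_iff, Nat.cast_add, Nat.cast_one, ENat.add_one_le_iff (ENat.natCast_ne_top t)]
  rw [meanJointHit, lintegral_enat]
  · refine tsum_congr fun t => ?_
    rw [key t, Measure.pi_pi]
    rfl
  · intro t
    rw [key t]
    exact MeasurableSet.univ_pi fun _ => measurableSet_avoid v t

lemma add_pow_le_aux (x y : ℝ≥0∞) (m : ℕ) :
    (x + y) ^ (m + 1) ≤ (m + 1) * (x + y) ^ m * x + y ^ (m + 1) := by
  induction m with
  | zero => simp
  | succ m ih =>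
    have h1 : x * y ^ (m + 1) ≤ x * (x + y) ^ (m + 1) := by gcongr; exact le_add_self
    calc (x + y) ^ (m + 1 + 1) = (x + y) * (x + y) ^ (m + 1) := by ring
      _ ≤ (x + y) * ((m + 1) * (x + y) ^ m * x + y ^ (m + 1)) := by gcongr
      _ = (m + 1) * (x + y) ^ (m + 1) * x + x * y ^ (m + 1) + y ^ (m + 1 + 1) := by ring
      _ ≤ (m + 1) * (x + y) ^ (m + 1) * x + x * (x + y) ^ (m + 1) + y ^ (m + 1 + 1) := by gcongr
      _ = ((m + 1 : ℕ) + 1) * (x + y) ^ (m + 1) * x + y ^ (m + 1 + 1) := by push_cast; ring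

/-- The analytic core: if the tails of a summable sequence `S` are bounded by
`(∑ S) * S t`, then `∑ S ≤ k * ∑ S ^ k`. -/
lemma core_inequality (S : ℕ → ℝ≥0∞) (hfin : ∑' t, S t ≠ ⊤)
    (htail : ∀ t, ∑' s, S (t + s) ≤ (∑' s, S s) * S t) (k : ℕ) (hk : 1 ≤ k) :
    ∑' t, S t ≤ k * ∑' t, S t ^ k := by
  obtain ⟨m, rfl⟩ : ∃ m, k = m + 1 := ⟨k - 1, by omega⟩
  set h := ∑' t, S t with hh
  let H : ℕ → ℝ≥0∞ := fun t => ∑' s, S (t + s)
  have hH0 : H 0 = h := by simp [H, hh]
  have hHsucc : ∀ t, H t = S t + H (t + 1) := by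
    intro t
    simp only [H]
    rw [tsum_eq_zero_add' ENNReal.summable]
    simp only [add_zero]
    congr 1
    refine tsum_congr fun s => ?_
    congr 1
    ring
  have step : ∀ t, H t ^ (m + 1) ≤ (m + 1) * h ^ m * S t ^ (m + 1) + H (t + 1) ^ (m + 1) := by
    intro t
    have h1 := add_pow_le_aux (S t) (H (t + 1)) m
    rw [← hHsucc t] at h1
    refine h1.trans ?_
    have h2 : H t ^ m ≤ (h * S t) ^ m := by
      gcongr
      exact htail t
    calc (m + 1) * H t ^ m * S t + H (t + 1) ^ (m + 1)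
        ≤ (m + 1) * (h * S t) ^ m * S t + H (t + 1) ^ (m + 1) := by gcongr
      _ = (m + 1) * h ^ m * S t ^ (m + 1) + H (t + 1) ^ (m + 1) := by
          rw [mul_pow]; ring
  have tele : ∀ n, h ^ (m + 1) ≤
      (m + 1) * h ^ m * (∑ t ∈ Finset.range n, S t ^ (m + 1)) + H n ^ (m + 1) := by
    intro n
    induction n with
    | zero => simp [hH0]
    | succ n ih =>
      refine ih.trans ?_
      rw [Finset.sum_range_succ, mul_add, add_assoc]
      gcongr
      exact step n
  have lim : Filter.Tendsto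
      (fun n => (m + 1) * h ^ m * (∑' t, S t ^ (m + 1)) + H n ^ (m + 1)) Filter.atTop
      (nhds ((m + 1) * h ^ m * (∑' t, S t ^ (m + 1)) + 0 ^ (m + 1))) := by
    refine Filter.Tendsto.const_add _ ?_
    refine (ENNReal.continuous_pow (m + 1)).tendsto 0 |>.comp ?_
    have := ENNReal.tendsto_sum_nat_add S hfin
    refine this.congr fun n => ?_
    simp only [H]
    exact tsum_congr fun s => by rw [add_comm]
  have main : h ^ (m + 1) ≤ (m + 1) * h ^ m * (∑' t, S t ^ (m + 1)) := by
    have tele' : ∀ n, h ^ (m + 1) ≤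
        (m + 1) * h ^ m * (∑' t, S t ^ (m + 1)) + H n ^ (m + 1) := by
      intro n
      refine (tele n).trans ?_
      gcongr
      exact ENNReal.sum_le_tsum _
    have := ge_of_tendsto' lim tele'
    simpa using this
  by_cases h0 : h = 0
  · rw [h0]; exact zero_le
  · have hp0 : h ^ m ≠ 0 := pow_ne_zero _ h0
    have hpt : h ^ m ≠ ⊤ := ENNReal.pow_ne_top hfin
    have : h ^ m * h ≤ h ^ m * (((m + 1 : ℕ) : ℝ≥0∞) * ∑' t, S t ^ (m + 1)) := by
      calc h ^ m * h = h ^ (m + 1) := by ring
        _ ≤ _ := main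
        _ = _ := by push_cast; ring
    exact (ENNReal.mul_le_mul_iff_right hp0 hpt).1 this

lemma surv_le_one (G : Digraph V) (v a : V) (t : ℕ) : surv G v a t ≤ 1 := prob_le_one

lemma surv_antitone (G : Digraph V) (v a : V) : Antitone (surv G v a) := by
  intro m n hmn
  exact measure_mono fun ω hω s hs => hω s (hs.trans hmn)

lemma tail_le (G : Digraph V) (v a : V) (h : ℝ≥0∞) (hh : ∀ b, ∑' s, surv G v b s ≤ h) (t : ℕ) :
    ∑' s, surv G v a (t + s) ≤ h * surv G v a t := by
  classical
  by_cases hav : a = v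
  · subst hav; simp [surv_self]
  · simp only [surv_add G v a hav]
    rw [surv_eq G v a hav, Summable.tsum_finsetSum (fun _ _ => ENNReal.summable), Finset.mul_sum]
    refine Finset.sum_le_sum fun z _ => ?_
    rw [ENNReal.tsum_mul_left, mul_comm]
    gcongr
    exact hh z

open Classical in
lemma exists_surv_lt_one (G : Digraph V) (v a : V) (h : Relation.ReflTransGen G.Adj a v) :
    ∃ n, surv G v a n < 1 := by
  induction h using Relation.ReflTransGen.head_induction_on with
  | refl => exact ⟨0, by rw [surv_self]; exact one_pos⟩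
  | @head a b hab _ ih =>
    obtain ⟨n, hn⟩ := ih
    by_cases hav : a = v
    · subst hav; exact ⟨0, by rw [surv_self]; exact one_pos⟩
    refine ⟨1 + n, ?_⟩
    rw [surv_add G v a hav, pow_one]
    have hne : (outNeighbours G a).Nonempty := ⟨b, by simp [outNeighbours, hab]⟩
    have hb : stepLaw G a b ≠ 0 := by
      rw [stepLaw, dif_pos hne]
      simp [outNeighbours, hab]
    have hsum : ∑ z, stepLaw G a z = 1 := by
      rw [← tsum_fintype (L := .unconditional V)]; exact (stepLaw G a).tsum_coe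
    have h1 : ∑ z, killed G v a z * surv G v z n ≤ ∑ z, stepLaw G a z * surv G v z n := by
      refine Finset.sum_le_sum fun z _ => ?_
      gcongr
      unfold killed
      split_ifs <;> simp
    refine h1.trans_lt ?_
    have h2 : ∑ z, stepLaw G a z * surv G v z n + ∑ z, stepLaw G a z * (1 - surv G v z n) = 1 := by
      rw [← Finset.sum_add_distrib]
      refine Eq.trans (Finset.sum_congr rfl fun z _ => ?_) hsum
      rw [← mul_add, add_tsub_cancel_of_le (surv_le_one G v z n), mul_one]
    have h3 : ∑ z, stepLaw G a z * (1 - surv G v z n) ≠ 0 := by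
      intro h0
      rw [Finset.sum_eq_zero_iff] at h0
      have := h0 b (Finset.mem_univ b)
      rw [mul_eq_zero] at this
      rcases this with h | h
      · exact hb h
      · rw [tsub_eq_zero_iff_le] at h
        exact absurd hn (not_lt.2 h)
    have h4 : ∑ z, stepLaw G a z * surv G v z n ≠ ⊤ := by
      intro h
      rw [h, top_add] at h2
      exact ENNReal.top_ne_one h2
    calc ∑ z, stepLaw G a z * surv G v z n
        < ∑ z, stepLaw G a z * surv G v z n + ∑ z, stepLaw G a z * (1 - surv G v z n) :=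
          ENNReal.lt_add_right h4 h3
      _ = 1 := h2

open Classical in
lemma meanHit_ne_top (G : Digraph V) (hG : StronglyConnected G) (a v : V) :
    meanHit G a v ≠ ⊤ := by
  choose n hn using fun b => exists_surv_lt_one G v b (hG b v)
  let N := Finset.univ.sup n
  have hN : ∀ b, surv G v b N < 1 := fun b =>
    (surv_antitone G v b (Finset.le_sup (Finset.mem_univ b))).trans_lt (hn b)
  let c := Finset.univ.sup (fun b => surv G v b N)
  have hc : c < 1 := (Finset.sup_lt_iff (by simp)).2 fun b _ => hN b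
  have hcb : ∀ b, surv G v b N ≤ c := fun b =>
    Finset.le_sup (f := fun b => surv G v b N) (Finset.mem_univ b)
  have hstep : ∀ t, surv G v a (t + N) ≤ c * surv G v a t := by
    intro t
    by_cases hav : a = v
    · subst hav; simp [surv_self]
    · rw [surv_add G v a hav, surv_eq G v a hav, Finset.mul_sum]
      refine Finset.sum_le_sum fun z _ => ?_
      rw [mul_comm]
      gcongr
      exact hcb z
  have hcne : c ≠ ⊤ := (hc.trans ENNReal.one_lt_top).ne
  have hpartial : ∀ m, ∑ t ∈ Finset.range m, surv G v a t ≤ N / (1 - c) := by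
    intro m
    have hx : ∑ t ∈ Finset.range (N + m), surv G v a t ≤
        N + c * ∑ t ∈ Finset.range (N + m), surv G v a t := by
      rw [Finset.sum_range_add]
      have e1 : ∑ t ∈ Finset.range N, surv G v a t ≤ N := by
        calc ∑ t ∈ Finset.range N, surv G v a t ≤ ∑ t ∈ Finset.range N, 1 :=
              Finset.sum_le_sum fun t _ => surv_le_one G v a t
          _ = N := by simp
      have e2 : ∑ t ∈ Finset.range m, surv G v a (N + t) ≤
          c * ∑ t ∈ Finset.range m, surv G v a t := by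
        rw [Finset.mul_sum]
        refine Finset.sum_le_sum fun t _ => ?_
        rw [add_comm]
        exact hstep t
      have e3 : ∑ t ∈ Finset.range m, surv G v a t ≤
          ∑ t ∈ Finset.range N, surv G v a t + ∑ t ∈ Finset.range m, surv G v a (N + t) := by
        rw [← Finset.sum_range_add]
        exact Finset.sum_le_sum_of_subset (by simp)
      exact add_le_add e1 (e2.trans (by gcongr))
    have hxtop : ∑ t ∈ Finset.range (N + m), surv G v a t ≠ ⊤ :=
      (ENNReal.sum_lt_top.2 fun t _ => (surv_le_one G v a t).trans_lt ENNReal.one_lt_top).ne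
    have hle : ∑ t ∈ Finset.range m, surv G v a t ≤ ∑ t ∈ Finset.range (N + m), surv G v a t :=
      Finset.sum_le_sum_of_subset (by simp)
    refine hle.trans ?_
    set x := ∑ t ∈ Finset.range (N + m), surv G v a t
    rw [ENNReal.le_div_iff_mul_le (Or.inl (tsub_pos_of_lt hc).ne')
      (Or.inl (ENNReal.sub_ne_top ENNReal.one_ne_top))]
    rw [ENNReal.mul_sub (fun _ _ => hxtop), mul_one]
    rw [tsub_le_iff_right, mul_comm x c]
    exact hx
  rw [meanHit_eq, ENNReal.tsum_eq_iSup_nat]
  refine ((iSup_le hpartial).trans_lt ?_).ne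
  exact ENNReal.div_lt_top (ENNReal.natCast_ne_top N) (tsub_pos_of_lt hc).ne'

/-- For every finite strongly connected digraph `G` and every `k ≥ 1`,
`h_max ≤ k * h^k_max` (and `h_max` is finite). -/
theorem result (G : Digraph V) (hG : StronglyConnected G) (k : ℕ) (hk : 1 ≤ k) :
    hMax G ≠ ⊤ ∧ hMax G ≤ k * hkMax G k := by
  classical
  constructor
  · unfold hMax
    have : ∀ a : V, (⨆ v : V, meanHit G a v) ≠ ⊤ := fun a => by
      rw [← Finset.sup_univ_eq_iSup]
      exact ((Finset.sup_lt_iff (by simp)).2 fun v _ => (meanHit_ne_top G hG a v).lt_top).ne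
    rw [← Finset.sup_univ_eq_iSup]
    exact ((Finset.sup_lt_iff (by simp)).2 fun a _ => (this a).lt_top).ne
  · refine iSup₂_le fun a v => ?_
    obtain ⟨a', -, ha'⟩ := Finset.exists_max_image (Finset.univ : Finset V)
      (fun b => meanHit G b v) ⟨a, Finset.mem_univ a⟩
    refine (ha' a (Finset.mem_univ a)).trans ?_
    have h1 : ∑' t, surv G v a' t ≤ k * ∑' t, surv G v a' t ^ k := by
      refine core_inequality _ ?_ ?_ k hk
      · rw [← meanHit_eq]; exact meanHit_ne_top G hG a' v
      · refine tail_le G v a' _ fun b => ?_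
        rw [← meanHit_eq, ← meanHit_eq]
        exact ha' b (Finset.mem_univ b)
    rw [meanHit_eq]
    refine h1.trans ?_
    gcongr
    have h2 : meanJointHit G k (fun _ => a') v = ∑' t, surv G v a' t ^ k := by
      rw [meanJointHit_eq]; simp
    rw [← h2]
    exact le_iSup₂ (f := fun (b : Fin k → V) (w : V) => meanJointHit G k b w) (fun _ => a') v

end Pool.Agent.Results.MP_990fd9_pr.HittingSpeedup
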